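import Pool.Agent.NH12.BA.Fam2

/-!
# The central order of twists of degree at most three is bounded on average

Let `ρ` be an irreducible Artin representation of `ℚ` of degree `m ≤ 3` which is automorphic and
cuspidal (all those of degree one, all odd ones of degree two, all with solvable image of degree two,
all those induced from a
character of a real quadratic or a totally real cubic field; for these induced representations, among
them the symplectic one of Serre's example, everything is proved here).  For the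
primitive Dirichlet characters `χ` of conductor `q ≤ Q` prime to the conductor of `ρ`, about `Q²` of
them, `ρ ⊗ χ` is an irreducible representation of the Galois group of a finite extension of `ℚ`.
Statements 2 and 3 of the problem say that the order of `L(s, ρ ⊗ χ)` at `1/2` is at most an absolute
constant `M₀`.

We prove, with no hypothesis on zeros, that this is true on average, in the strongest sense short of a
bound for every `χ`: with constants depending on `ρ` only,

* (1) the number of the `χ` for which `L(s, ρ ⊗ χ)` has a zero of order at least `k` at `1/2 + it` is at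
  most `C (2 + |t|)^(3m) Q² exp(-k/2000)`, for all `k`, `t` and `Q`;
* (2) the average order of `L(s, ρ ⊗ χ)` at `1/2` is bounded, and at `1/2 + it` it is at most
  `C log (2 + |t|)`;
* (3) the average number of zeros of `L(s, ρ ⊗ χ)` in the disc `|s - 1/2 - it| ≤ r` is at most
  `C (r log Q + log (2 + |t|))`, for all `0 ≤ r ≤ 1/100`; so the average number of zeros in a disc of
  radius `A/log Q` about the central point, `A` fixed, is bounded;
* (4) for every `ε > 0` there is `M` such that the order of `L(s, ρ ⊗ χ)` at `1/2` is at most `M`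
  for all `χ` but `ε Q²`, for every `Q`;
* (5) the average of `exp (order / 4000)` is bounded, so all moments of the order are bounded.

The starting result `MP_3b6604_nt/AverageCentralZeros` (helper399) has these estimates with an
additional factor `(log Q)^B` in (1), and an additional term `log log Q` in (2) and (3), and nothing
like (4) and (5).

The families are given as in the starting result `CuspidalTwists` (`IsFamily`): an Euler product of
degree `m` whose twists have the analytic properties of automorphic L-functions, or the induction of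
a Hecke character (of finite order for Artin representations) of a totally real field of degree `m`,
where nothing is assumed.

Proof.  The mollifier has the smooth weights `b₁(log n / log Q)` and the dual sum the smooth weights
`b₂(log n / log Q)`; writing the weights as Fourier integrals, one sees that the coefficients of the
product `L M`, `∑_{de = n} μ(d) b₁(log d/log Q) b₂(log e/log Q) ...`, are averages of Euler products
`∏ (1 - p^(iu) ...)(1 - p^(iv) ...)⁻¹` with `u, v` of size `1/log Q`, so that their mean square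
with the weight `1/n` is bounded: no power of `log Q` is lost.  An average over the length of the
smooth cut in the functional equation makes the integral on the critical line
converge absolutely, again without loss.  So the mollified values have bounded mean square on and near
the critical line and are in mean square close to a constant between `1/2` and `1` to the right of it,
and `k` zeros near `1/2 + it` are possible only with frequency `exp(-c k)`.
-/

set_option autoImplicit false

open Complex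

namespace Pool.Agent.Results.MP_347b49_nt.BoundedAverageOrder

open Pool.Agent.Results.MP_77948b_nt.CuspidalTwists (IsFamily)

/-- The number of the primitive Dirichlet characters `χ` of conductor `q`, `2 ≤ q ≤ Q`, `q` prime to
`N`, which have the property `S q χ`. -/
noncomputable def count (N Q : ℕ) (S : (q : ℕ) → DirichletCharacter ℂ q → Prop) : ℕ :=
  ∑ q ∈ (Finset.Icc 2 Q).filter (fun q => Nat.Coprime q N),
    {χ : DirichletCharacter ℂ q | χ.IsPrimitive ∧ S q χ}.ncard

/-- The sum of `f q χ` over the primitive Dirichlet characters `χ` of conductor `q`, `2 ≤ q ≤ Q`, `q`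
prime to `N`. -/
noncomputable def sumOver (N Q : ℕ) (f : (q : ℕ) → DirichletCharacter ℂ q → ℝ) : ℝ :=
  ∑ q ∈ (Finset.Icc 2 Q).filter (fun q => Nat.Coprime q N),
    ∑ᶠ χ ∈ {χ : DirichletCharacter ℂ q | χ.IsPrimitive}, f q χ

/-- The entire function `F` has at least `k` zeros, counted with multiplicity, in the disc with centre
`w` and radius `r`: it is `(s - z_1) ... (s - z_k) H(s)` with `H` entire and the `z_j` in the disc. -/
def HasZeros (F : ℂ → ℂ) (k : ℕ) (w : ℂ) (r : ℝ) : Prop :=
  ∃ (z : ℕ → ℂ) (H : ℂ → ℂ), Differentiable ℂ H ∧ (∀ j < k, ‖z j - w‖ ≤ r) ∧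
    ∀ s, F s = (∏ j ∈ Finset.range k, (s - z j)) * H s

lemma pt_half (t : ℝ) : Pool.Agent.R399.TW.pt (1 / 2) t = 1 / 2 + t * I := by
  unfold Pool.Agent.R399.TW.pt
  push_cast
  rfl

/-- a layer-cake bound for the exponential moment -/
lemma exp_moment {ι : Type} (J : Finset ι) (f : ι → ℕ) {W : ℝ} (hW : 0 ≤ W)
    (h : ∀ k : ℕ, (((J.filter fun i => k ≤ f i).card : ℕ) : ℝ) ≤
      W * Real.exp (-(k : ℝ) / 2000)) :
    ∑ i ∈ J, Real.exp ((f i : ℝ) / 4000) ≤ W * (1 / (1 - Real.exp (-1 / 4000))) := by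
  classical
  obtain ⟨M, hM⟩ : ∃ M : ℕ, ∀ i ∈ J, f i ≤ M := ⟨J.sup f, fun i hi => Finset.le_sup (f := f) hi⟩
  set x : ℝ := Real.exp (-1 / 4000) with hx
  have hx0 : 0 < x := Real.exp_pos _
  have hx1 : x < 1 := by
    rw [hx, ← Real.exp_zero]
    exact Real.exp_lt_exp.2 (by norm_num)
  have hpow : ∀ k : ℕ, Real.exp ((k : ℝ) / 4000) * Real.exp (-(k : ℝ) / 2000) = x ^ k := by
    intro k
    rw [hx, ← Real.exp_nat_mul, ← Real.exp_add]
    congr 1
    ring
  have h1 : ∑ i ∈ J, Real.exp ((f i : ℝ) / 4000) ≤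
      ∑ k ∈ Finset.range (M + 1), W * x ^ k := by
    have hmap : ∀ i ∈ J, f i ∈ Finset.range (M + 1) := fun i hi =>
      Finset.mem_range.2 (Nat.lt_succ_of_le (hM i hi))
    rw [← Finset.sum_fiberwise_of_maps_to hmap]
    refine Finset.sum_le_sum fun k _ => ?_
    have h2 : ∑ i ∈ J.filter (fun i => f i = k), Real.exp ((f i : ℝ) / 4000) =
        ((J.filter (fun i => f i = k)).card : ℝ) * Real.exp ((k : ℝ) / 4000) := by
      rw [Finset.sum_congr rfl (g := fun _ => Real.exp ((k : ℝ) / 4000)) (fun i hi => by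
        rw [(Finset.mem_filter.1 hi).2]), Finset.sum_const, nsmul_eq_mul]
    rw [h2]
    have h3 : ((J.filter (fun i => f i = k)).card : ℝ) ≤ W * Real.exp (-(k : ℝ) / 2000) := by
      refine le_trans ?_ (h k)
      have h5 : J.filter (fun i => f i = k) ⊆ J.filter (fun i => k ≤ f i) := by
        intro i hi
        rw [Finset.mem_filter] at hi ⊢
        exact ⟨hi.1, hi.2.symm.le⟩
      exact_mod_cast Finset.card_le_card h5
    calc ((J.filter (fun i => f i = k)).card : ℝ) * Real.exp ((k : ℝ) / 4000)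
        ≤ (W * Real.exp (-(k : ℝ) / 2000)) * Real.exp ((k : ℝ) / 4000) := by gcongr
      _ = W * (Real.exp ((k : ℝ) / 4000) * Real.exp (-(k : ℝ) / 2000)) := by ring
      _ = _ := by rw [hpow]
  refine h1.trans ?_
  rw [← Finset.mul_sum]
  refine mul_le_mul_of_nonneg_left ?_ hW
  have h2 := (summable_geometric_of_lt_one hx0.le hx1).sum_le_tsum (Finset.range (M + 1))
    fun k _ => by positivity
  rw [tsum_geometric_of_lt_one hx0.le hx1] at h2
  rw [one_div]
  exact h2

/-- **Theorem.** -/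
theorem result (m N : ℕ) (hm : m ≤ 3) (L : (q : ℕ) → DirichletCharacter ℂ q → ℂ → ℂ)
    (hL : IsFamily m N L) :
    (∀ (q : ℕ) (χ : DirichletCharacter ℂ q), 2 ≤ q → Nat.Coprime q N → χ.IsPrimitive →
      Differentiable ℂ (L q χ) ∧ ∀ s : ℂ, analyticOrderAt (L q χ) s ≠ ⊤) ∧
    (∃ C : ℝ, ∀ (Q k : ℕ) (t : ℝ), 1 ≤ Q →
      (count N Q (fun q χ => k ≤ analyticOrderNatAt (L q χ) (1 / 2 + t * I)) : ℝ) ≤
        C * (2 + |t|) ^ (3 * m) * ((Q : ℝ) ^ 2 * Real.exp (-(k : ℝ) / 2000))) ∧
    (∃ C : ℝ, ∀ (Q : ℕ) (t : ℝ), 1 ≤ Q →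
      sumOver N Q (fun q χ => (analyticOrderNatAt (L q χ) (1 / 2 + t * I) : ℝ)) ≤
        C * (Q : ℝ) ^ 2 * Real.log (2 + |t|)) ∧
    (∃ C : ℝ, ∀ (Q : ℕ) (t r : ℝ) (κ : (q : ℕ) → DirichletCharacter ℂ q → ℕ), 1 ≤ Q → 0 ≤ r →
      r ≤ 1 / 100 →
      (∀ (q : ℕ) (χ : DirichletCharacter ℂ q), 2 ≤ q → q ≤ Q → Nat.Coprime q N →
        χ.IsPrimitive → HasZeros (L q χ) (κ q χ) (1 / 2 + t * I) r) →
      sumOver N Q (fun q χ => (κ q χ : ℝ)) ≤
        C * (Q : ℝ) ^ 2 * (r * Real.log Q + Real.log (2 + |t|))) ∧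
    (∀ ε : ℝ, 0 < ε → ∃ M : ℕ, ∀ Q : ℕ, 1 ≤ Q →
      (count N Q (fun q χ => M < analyticOrderNatAt (L q χ) (1 / 2)) : ℝ) ≤ ε * (Q : ℝ) ^ 2) ∧
    (∃ C : ℝ, ∀ Q : ℕ, 1 ≤ Q →
      sumOver N Q (fun q χ => Real.exp ((analyticOrderNatAt (L q χ) (1 / 2) : ℝ) / 4000)) ≤
        C * (Q : ℝ) ^ 2) := by
  classical
  have h := Pool.Agent.R399.TM.fo_of_family hL
  have hfin : ∀ (q : ℕ) (χ : DirichletCharacter ℂ q), 2 ≤ q → Nat.Coprime q N →
      χ.IsPrimitive → Differentiable ℂ (L q χ) ∧ ∀ s : ℂ, analyticOrderAt (L q χ) s ≠ ⊤ := by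
    intro q χ hq hqN hχ
    refine ⟨?_, h.fin hq hqN hχ⟩
    obtain ⟨c, R₀, V, C, -, -, -, -, hmem⟩ := h
    exact (hmem q χ hq hqN hχ).1
  obtain ⟨C₁, hC₁, havg⟩ := Pool.Agent.NH12.BA.avg2 hm h
  obtain ⟨C₂, hC₂, htail⟩ := Pool.Agent.NH12.BA.tail2 hm h
  have hp0 : Pool.Agent.R399.TW.pt (1 / 2) 0 = 1 / 2 := by
    rw [pt_half]
    simp
  have hdisc : ∀ (Q : ℕ) (t r : ℝ) (κ : (q : ℕ) → DirichletCharacter ℂ q → ℕ), 1 ≤ Q → 0 ≤ r →
      r ≤ 1 / 100 →
      (∀ (q : ℕ) (χ : DirichletCharacter ℂ q), 2 ≤ q → q ≤ Q → Nat.Coprime q N →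
        χ.IsPrimitive → HasZeros (L q χ) (κ q χ) (1 / 2 + t * I) r) →
      sumOver N Q (fun q χ => (κ q χ : ℝ)) ≤ C₁ * (Q : ℝ) ^ 2 *
        (r * Real.log Q + Real.log (2 + |t|)) := by
    intro Q t r κ hQ hr hr' hκ
    refine havg Q t r κ hQ hr hr' fun q χ h1 h2 h3 h4 => ?_
    rw [pt_half]
    exact hκ q χ h1 h2 h3 h4
  have hcount : ∀ (Q k : ℕ) (t : ℝ), 1 ≤ Q →
      (count N Q (fun q χ => k ≤ analyticOrderNatAt (L q χ) (1 / 2 + t * I)) : ℝ) ≤
        C₂ * (2 + |t|) ^ (3 * m) * ((Q : ℝ) ^ 2 * Real.exp (-(k : ℝ) / 2000)) := by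
    intro Q k t hQ
    have h1 := htail Q t 0 k hQ (by norm_num) (by simp)
    refine le_trans ?_ h1
    refine Pool.Agent.R399.TM.count_mono (N := N) (N' := N) (Q := Q)
      (S := fun q χ => k ≤ analyticOrderNatAt (L q χ) (1 / 2 + t * I)) (dvd_refl N) ?_
    intro q χ hq hqN hχ hk
    obtain ⟨g1, g2⟩ := hfin q χ hq hqN hχ
    refine Pool.Agent.R399.TM.Dv.of_order g1 le_rfl ?_
    rw [pt_half, ← Nat.cast_analyticOrderNatAt (g2 _)]
    exact_mod_cast hk
  have hcount0 : ∀ (Q k : ℕ), 1 ≤ Q →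
      (count N Q (fun q χ => k ≤ analyticOrderNatAt (L q χ) (1 / 2)) : ℝ) ≤
        C₂ * 2 ^ (3 * m) * ((Q : ℝ) ^ 2 * Real.exp (-(k : ℝ) / 2000)) := by
    intro Q k hQ
    have h1 := hcount Q k 0 hQ
    simpa using h1
  refine ⟨hfin, ⟨_, hcount⟩, ⟨C₁, fun Q t hQ => ?_⟩, ⟨C₁, hdisc⟩, fun ε hε => ?_, ?_⟩
  · have h1 := hdisc Q t 0 (fun q χ => if 2 ≤ q ∧ Nat.Coprime q N ∧ χ.IsPrimitive then
      analyticOrderNatAt (L q χ) (1 / 2 + t * I) else 0) hQ le_rfl (by norm_num)
      (fun q χ h1 h2 h3 h4 => by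
        simp only [if_pos (show 2 ≤ q ∧ Nat.Coprime q N ∧ χ.IsPrimitive from ⟨h1, h3, h4⟩)]
        obtain ⟨g1, g2⟩ := hfin q χ h1 h3 h4
        exact Pool.Agent.R399.TM.Dv.of_order g1 le_rfl (by
          rw [Nat.cast_analyticOrderNatAt (g2 _)]))
    rw [zero_mul, zero_add] at h1
    refine le_trans (le_of_eq ?_) h1
    unfold sumOver
    refine Finset.sum_congr rfl fun q hq => ?_
    rw [Finset.mem_filter, Finset.mem_Icc] at hq
    refine finsum_mem_congr rfl fun χ hχ => ?_
    simp only [if_pos (show 2 ≤ q ∧ Nat.Coprime q N ∧ χ.IsPrimitive from ⟨hq.1.1, hq.2, hχ⟩)]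
  · -- all but `ε Q²`
    set C : ℝ := C₂ * 2 ^ (3 * m) with hCd
    have hC0 : 0 ≤ C := by positivity
    obtain ⟨M, hM⟩ := exists_nat_ge (2000 * Real.log ((1 + C) / ε))
    refine ⟨M, fun Q hQ => ?_⟩
    have h1 : (count N Q (fun q χ => M < analyticOrderNatAt (L q χ) (1 / 2)) : ℝ) ≤
        count N Q (fun q χ => M ≤ analyticOrderNatAt (L q χ) (1 / 2)) :=
      Pool.Agent.R399.TM.count_mono (N := N) (N' := N) (Q := Q)
        (S := fun q χ => M < analyticOrderNatAt (L q χ) (1 / 2))
        (S' := fun q χ => M ≤ analyticOrderNatAt (L q χ) (1 / 2)) (dvd_refl N)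
        fun q χ _ _ _ h2 => h2.le
    refine h1.trans ((hcount0 Q M hQ).trans ?_)
    have h2 : Real.exp (-(M : ℝ) / 2000) ≤ ε / (1 + C) := by
      rw [← Real.exp_log (show 0 < ε / (1 + C) by positivity)]
      apply Real.exp_le_exp.2
      have h3 : Real.log (ε / (1 + C)) = -Real.log ((1 + C) / ε) := by
        rw [← Real.log_inv, inv_div]
      rw [h3]
      linarith
    calc C * ((Q : ℝ) ^ 2 * Real.exp (-(M : ℝ) / 2000))
        ≤ (1 + C) * ((Q : ℝ) ^ 2 * (ε / (1 + C))) := by
          have : C ≤ 1 + C := by linarith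
          gcongr
      _ = _ := by field_simp
  · -- the exponential moment
    refine ⟨C₂ * 2 ^ (3 * m) * (1 / (1 - Real.exp (-1 / 4000))), fun Q hQ => ?_⟩
    have h1 := exp_moment (Pool.Agent.R399.TW.idx N Q)
      (fun i => analyticOrderNatAt (L i.1 i.2) (1 / 2)) (W := C₂ * 2 ^ (3 * m) * (Q : ℝ) ^ 2)
      (by positivity) (fun k => by
        have h2 := hcount0 Q k hQ
        have h3 : count N Q (fun q χ => k ≤ analyticOrderNatAt (L q χ) (1 / 2)) =
          Pool.Agent.R399.TW.count N Q (fun q χ => k ≤ analyticOrderNatAt (L q χ) (1 / 2)) := rfl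
        rw [h3, Pool.Agent.R399.TW.count_eq] at h2
        have h5 : C₂ * 2 ^ (3 * m) * (Q : ℝ) ^ 2 * Real.exp (-(k : ℝ) / 2000) =
            C₂ * 2 ^ (3 * m) * ((Q : ℝ) ^ 2 * Real.exp (-(k : ℝ) / 2000)) := by ring
        rw [h5]
        convert h2)
    have h4 : sumOver N Q (fun q χ =>
        Real.exp ((analyticOrderNatAt (L q χ) (1 / 2) : ℝ) / 4000)) =
        Pool.Agent.R399.TM.sumq N Q (fun q χ =>
          Real.exp ((analyticOrderNatAt (L q χ) (1 / 2) : ℝ) / 4000)) := rfl
    rw [h4, Pool.Agent.R399.TM.sumq_eq]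
    refine h1.trans (le_of_eq ?_)
    ring

end Pool.Agent.Results.MP_347b49_nt.BoundedAverageOrder
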