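import Pool.Agent.JZ12.All
import Pool.Agent.JZ12.R1

/-!
# Fixed differences and common zeros of twisted L-functions

Let `ψ₁`, `ψ₂` be primitive Dirichlet characters of conductors `N₁`, `N₂` and `h ≥ 0` real, with
`(ψ₂, h) ≠ (ψ₁, 0)`.  For a primitive character `χ` of conductor `q` prime to `N₁ N₂` the functions
`L(s, χ ψ₁)` and `L(s, χ ψ₂)` are Artin L-functions of `ℚ`, and linear independence of the zeros
implies that no zero of the first is a zero of the second (`h = 0`), and that for `h > 0` at most one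
pair of their zeros has the difference `i h`, even if `ψ₁ = ψ₂`.  Unconditionally, on average over
the `q` with `X < q ≤ Y` (`K X ≤ Y ≤ X ^ (1 + η)`, weight `q⁻²`) and the primitive `χ` modulo `q`,
for the zeros `s` of `L(s, χ ψ₁)` and of `L(s + i h, χ ψ₂)` with `T < Im s ≤ 2 T`,
`(log X)² ≤ T ≤ X ^ η`: if `N` is their number, counted with multiplicity, then at least `0.3579 N`
zeros of one of the two functions are simple, critical and not zeros of the other; at least
`0.0368 N` have moreover an ordinate which no other zero of the two functions has; the number of the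
distinct zeros is at least `0.6789 N`; and the number of the common zeros, even counted with the
smaller of the two multiplicities, is at most `0.3211 N` (the trivial bound is `0.5 N`).

Proof.  The trace inequality for zeros (no hypothesis on zeros off the line) is applied to the
product `L(s, χ ψ₁) L(s + i h, χ ψ₂)`.  The mean square of its prime sums over the family is known
up to the length `X ^ (2 - ε)` by the sharp large sieve of the starting files, and its size follows
from the non-vanishing of `L(1 + i h, ψ₁ conj ψ₂)`.  With the window with the parameter 2 the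
constant is `1 + cot 1 < 1.6421`.

Authors: helper12, helper17, helper26, helper48, helper58, helper66, helper71, helper72, helper75,
helper82, helper91, helper19; the machinery is that of the starting modules `Pool.Agent.H385R2`,
`Pool.Agent.W388` and `Pool.Agent.R321`.
-/

set_option autoImplicit false

open Complex

namespace Pool.Agent.Results.MP_347b49_nt.FixedDifferences

/-- The Dirichlet L-function of a character modulo `q` (the value for `q = 0` is never used). -/
noncomputable def Lfun (q : ℕ) (χ : DirichletCharacter ℂ q) : ℂ → ℂ :=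
  if h : q = 0 then 0 else
    haveI : NeZero q := ⟨h⟩
    DirichletCharacter.LFunction χ

/-- The character `χ ψ` modulo `q N`. -/
noncomputable def prod {q N : ℕ} (χ : DirichletCharacter ℂ q) (ψ : DirichletCharacter ℂ N) :
    DirichletCharacter ℂ (q * N) :=
  DirichletCharacter.changeLevel (Nat.dvd_mul_right q N) χ *
    DirichletCharacter.changeLevel (Nat.dvd_mul_left N q) ψ

/-- The function `s ↦ L(s + i h, χ ψ)`. -/
noncomputable def F {N : ℕ} (ψ : DirichletCharacter ℂ N) (h : ℝ) (q : ℕ)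
    (χ : DirichletCharacter ℂ q) (s : ℂ) : ℂ :=
  Lfun (q * N) (prod χ ψ) (s + (h : ℂ) * I)

/-- The zeros of `F` in the open critical strip with ordinate in `(T, 2T]`. -/
def zeros (F : ℂ → ℂ) (T : ℝ) : Set ℂ :=
  {s : ℂ | 0 < s.re ∧ s.re < 1 ∧ T < s.im ∧ s.im ≤ 2 * T ∧ F s = 0}

/-- The number of these zeros, counted with multiplicity. -/
noncomputable def N (F : ℂ → ℂ) (T : ℝ) : ℕ := ∑ᶠ s ∈ zeros F T, analyticOrderNatAt F s

/-- The zeros of `F` on the critical line which are simple and are not zeros of `G`. -/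
def only (F G : ℂ → ℂ) (T : ℝ) : Set ℂ :=
  {s : ℂ | s ∈ zeros F T ∧ s.re = 1 / 2 ∧ analyticOrderNatAt F s = 1 ∧ G s ≠ 0}

/-- Those of them whose ordinate is not the ordinate of any other zero of `F` or `G`. -/
def alone (F G : ℂ → ℂ) (T : ℝ) : Set ℂ :=
  {s : ℂ | s ∈ only F G T ∧ ∀ s' ∈ zeros F T ∪ zeros G T, s'.im = s.im → s' = s}

/-- The number of the common zeros of `F` and `G`, each counted with the smaller of the two
multiplicities. -/
noncomputable def common (F G : ℂ → ℂ) (T : ℝ) : ℕ :=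
  ∑ᶠ s ∈ zeros F T ∩ zeros G T, min (analyticOrderNatAt F s) (analyticOrderNatAt G s)

/-- The primitive Dirichlet characters of conductor `q`. -/
def prim (q : ℕ) : Set (DirichletCharacter ℂ q) := {χ | χ.IsPrimitive}

/-- The sum of `f q χ / q²` over the `q` prime to `M` with `X < q ≤ Y` and the primitive characters
`χ` modulo `q`. -/
noncomputable def fam (M X Y : ℕ) (f : (q : ℕ) → DirichletCharacter ℂ q → ℕ) : ℝ :=
  ∑ q ∈ (Finset.Ioc X Y).filter (fun q => Nat.Coprime q M), (1 / (q : ℝ) ^ 2) *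
    ∑ᶠ χ ∈ prim q, (f q χ : ℝ)

lemma fam_eq (M X Y : ℕ) (f : (q : ℕ) → DirichletCharacter ℂ q → ℕ) :
    fam M X Y f = H385.primFamM M X Y (fun q χ => (f q χ : ℝ)) := by
  unfold fam H385.primFamM
  refine Finset.sum_congr rfl fun q _ => ?_
  congr 1
  rw [← finsum_set_coe_eq_finsum_mem]
  rfl

/-- **Fixed differences and common zeros of `L(s, χ ψ₁)` and `L(s, χ ψ₂)` on average over `χ`.** -/
theorem result (N₁ N₂ : ℕ) (hN₁ : 1 ≤ N₁) (hN₂ : 1 ≤ N₂) (ψ₁ : DirichletCharacter ℂ N₁)
    (ψ₂ : DirichletCharacter ℂ N₂) (h₁ : ψ₁.IsPrimitive) (h₂ : ψ₂.IsPrimitive) (h : ℝ) (h0 : 0 ≤ h)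
    (hne : h = 0 → ∃ n : ℕ, ψ₁ (n : ZMod N₁) ≠ ψ₂ (n : ZMod N₂)) :
    ∃ K η X₀ : ℝ, 1 ≤ K ∧ 0 < η ∧ 1 ≤ X₀ ∧
    ∀ (X Y : ℕ) (T : ℝ), X₀ ≤ X → K * X ≤ Y → (Y : ℝ) ≤ (X : ℝ) ^ (1 + η) →
      (Real.log X) ^ 2 ≤ T → T ≤ (X : ℝ) ^ η →
      0 < fam (N₁ * N₂) X Y (fun q χ => N (F ψ₁ 0 q χ) T + N (F ψ₂ h q χ) T) ∧
      (∀ q : ℕ, X < q → Nat.Coprime q (N₁ * N₂) → ∀ χ ∈ prim q,
        (zeros (F ψ₁ 0 q χ) T).Finite ∧ (zeros (F ψ₂ h q χ) T).Finite) ∧
      0.3579 * fam (N₁ * N₂) X Y (fun q χ => N (F ψ₁ 0 q χ) T + N (F ψ₂ h q χ) T) ≤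
        fam (N₁ * N₂) X Y (fun q χ => (only (F ψ₁ 0 q χ) (F ψ₂ h q χ) T).ncard +
          (only (F ψ₂ h q χ) (F ψ₁ 0 q χ) T).ncard) ∧
      0.0368 * fam (N₁ * N₂) X Y (fun q χ => N (F ψ₁ 0 q χ) T + N (F ψ₂ h q χ) T) ≤
        fam (N₁ * N₂) X Y (fun q χ => (alone (F ψ₁ 0 q χ) (F ψ₂ h q χ) T).ncard +
          (alone (F ψ₂ h q χ) (F ψ₁ 0 q χ) T).ncard) ∧
      0.6789 * fam (N₁ * N₂) X Y (fun q χ => N (F ψ₁ 0 q χ) T + N (F ψ₂ h q χ) T) ≤
        fam (N₁ * N₂) X Y (fun q χ => (zeros (F ψ₁ 0 q χ) T ∪ zeros (F ψ₂ h q χ) T).ncard) ∧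
      fam (N₁ * N₂) X Y (fun q χ => common (F ψ₁ 0 q χ) (F ψ₂ h q χ) T) ≤
        0.3211 * fam (N₁ * N₂) X Y (fun q χ => N (F ψ₁ 0 q χ) T + N (F ψ₂ h q χ) T) := by
  let D : Pool.Agent.JZ12.Dat 2 :=
    { N := Fin.cons N₁ (Fin.cons N₂ finZeroElim)
      ψ := Fin.cons ψ₁ (Fin.cons ψ₂ finZeroElim)
      h := Fin.cons 0 (Fin.cons h finZeroElim)
      N0 := by
        intro j
        fin_cases j
        · show N₁ ≠ 0
          omega
        · show N₂ ≠ 0
          omega
      prim := by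
        intro j
        fin_cases j
        · exact h₁
        · exact h₂
      h0 := by
        intro j
        fin_cases j
        · exact le_refl (0 : ℝ)
        · exact h0
      ne := by
        intro i j hij hh
        fin_cases i <;> fin_cases j
        · exact absurd rfl hij
        · exact hne (Eq.symm hh)
        · obtain ⟨n, hn⟩ := hne hh
          exact ⟨n, fun e => hn e.symm⟩
        · exact absurd rfl hij }
  have hM : N₁ * N₂ ≠ 0 := Nat.mul_ne_zero (by omega) (by omega)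
  obtain ⟨K, η, X0, hK, hη, hX0, H⟩ := Pool.Agent.JZ12.pairs Pool.Agent.JZ12.all_main
    Pool.Agent.JZ12.all_tw D (N₁ * N₂) hM (by
      intro j
      fin_cases j
      · exact Nat.dvd_mul_right N₁ N₂
      · exact Nat.dvd_mul_left N₂ N₁)
  refine ⟨K, η, X0, hK, hη, hX0, ?_⟩
  intro X Y T hX hKX hY hT1 hT2
  obtain ⟨b0, bf, b1, b2, b3, b4⟩ := H X Y T hX hKX hY hT1 hT2
  rw [fam_eq, fam_eq, fam_eq, fam_eq, fam_eq]
  exact ⟨b0, fun q hq ho χ hχ => bf q hq ho χ hχ, b1, b2, b3, b4⟩

end Pool.Agent.Results.MP_347b49_nt.FixedDifferences
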