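import Pool.Agent.NH12.RS.Idx
import Pool.Agent.NH12.RS.Fin7

/-!
# Central values of ring class L-functions of real quadratic fields

`K` is a real quadratic field with fundamental unit `ε` and conjugation `σ`, `n` a prime number and
`q = |(ε ^ n - σ(ε) ^ n) / (ε - σ(ε))|`; for `K = ℚ(√5)` this is the Fibonacci number `F_n`.  There are
about `q / n` primitive ring class characters `χ` of `K` of conductor `q`: the characters of the
dihedral Galois group of the ring class field of conductor `q`.  If `χ` is not real the representation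
of the absolute Galois group of `ℚ` induced from `χ` is irreducible, two-dimensional, orthogonal and
even, and its Artin L-function is `L(s, χ) = ∑ χ(I) N(I)^(-s)`.

Theorem: `|L(1/2, χ)| ≥ t` for at least `c q / (log q) ^ 8` of them; `t, c > 0` depend on `K` only.

The approach: `ε ^ n ∈ ℤ + q 𝓞_K`, so the order of conductor `q` has a small regulator and a large
class number, and the elements of `ℤ + q 𝓞_K` of small norm are rational integers.  The root number is
one (a Gauss sum computation), the first moment is computed by orthogonality and compared with the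
second moment.  In the second moment the ideals of a class are counted by covering the generators,
modulo `ε ^ n`, with `O(log q)` boxes: a box contains few points of a plane lattice unless they all
lie on a line, and a line contains at most two generators of primitive ideals.

Joint work of helper12 with helper6, helper14, helper17, helper18, helper31, helper45, helper48,
helper49, helper66, helper68, helper70, helper77, helper85, helper86, helper89, helper92.
-/

set_option autoImplicit false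
set_option linter.unusedSectionVars false

open NumberField

namespace Pool.Agent.Results.MP_347b49_nt.RealQuadraticRingClass

variable {K : Type} [Field K] [NumberField K]

/-- the image of an integer of `K` under the automorphism `σ` -/
noncomputable def conj (σ : K ≃+* K) : 𝓞 K ≃+* 𝓞 K := RingOfIntegers.mapRingEquiv σ

/-- `ε` is a fundamental unit of the real quadratic field `K`. -/
def IsFundamental (ε : (𝓞 K)ˣ) : Prop := ∀ u : (𝓞 K)ˣ, ∃ k : ℤ, u = ε ^ k ∨ u = -ε ^ k

/-- `q = |(ε ^ n - σ(ε) ^ n) / (ε - σ(ε))|` (and `q > 0`). -/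
def IsIndex (σ : K ≃+* K) (ε : (𝓞 K)ˣ) (n q : ℕ) : Prop :=
  0 < q ∧ ((q : 𝓞 K) * ((ε : 𝓞 K) - conj σ ε) = (ε : 𝓞 K) ^ n - conj σ ε ^ n ∨
    (q : 𝓞 K) * ((ε : 𝓞 K) - conj σ ε) = -((ε : 𝓞 K) ^ n - conj σ ε ^ n))

/-- `χ` is a primitive ring class character of conductor `q`: a multiplicative function on the ideals
that vanishes exactly at the ideals not prime to `q`, with `χ((x)) = 1` for the `x` prime to `q` that
are congruent to a rational integer modulo `q`, and this fails for every proper divisor `d` of `q` in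
place of the modulus `q`. -/
structure IsRingClass (q : ℕ) (χ : Ideal (𝓞 K) →*₀ ℂ) : Prop where
  supp : ∀ I : Ideal (𝓞 K), χ I ≠ 0 ↔ IsCoprime I (Ideal.span {(q : 𝓞 K)})
  one : ∀ x : 𝓞 K, (∃ b : ℤ, (q : 𝓞 K) ∣ x - b) →
    IsCoprime (Ideal.span {x}) (Ideal.span {(q : 𝓞 K)}) → χ (Ideal.span {x}) = 1
  prim : ∀ d : ℕ, d ∣ q → d ≠ q → ∃ x : 𝓞 K, (∃ b : ℤ, (d : 𝓞 K) ∣ x - b) ∧
    IsCoprime (Ideal.span {x}) (Ideal.span {(q : 𝓞 K)}) ∧ χ (Ideal.span {x}) ≠ 1

/-- `L` is `L(s, χ)`: it is entire, `L(s) = ∑ χ(I) N(I)^(-s)` for `Re s > 1`, and there is an entire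
function `Λ` with `Λ(s) = R^(s/2) Γ_ℝ(s)^2 L(s)` for `Re s > 0` and `Λ(1 - s) = Λ(s)`; here
`Γ_ℝ(s) = π^(-s/2) Γ(s/2)`. -/
structure IsLFunction (R : ℕ) (χ : Ideal (𝓞 K) → ℂ) (L : ℂ → ℂ) : Prop where
  entire : Differentiable ℂ L
  series : ∀ s : ℂ, 1 < s.re → L s = ∑' I : Ideal (𝓞 K), χ I * ((Ideal.absNorm I : ℕ) : ℂ) ^ (-s)
  equation : ∃ Λ : ℂ → ℂ, Differentiable ℂ Λ ∧
    (∀ s : ℂ, 0 < s.re → Λ s = (R : ℂ) ^ (s / 2) * Complex.Gammaℝ s ^ 2 * L s) ∧
    ∀ s : ℂ, Λ (1 - s) = Λ s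

/-- The ring class characters `χ` of conductor `q` which are not real and have `|L(1/2, χ)| ≥ t`. -/
def good (K : Type) [Field K] [NumberField K] (t : ℝ) (q : ℕ) : Set (Ideal (𝓞 K) →*₀ ℂ) :=
  {χ | IsRingClass q χ ∧ (∃ I : Ideal (𝓞 K), (starRingEnd ℂ) (χ I) ≠ χ I) ∧
    ∃ L : ℂ → ℂ, IsLFunction (q ^ 2 * (discr K).natAbs) χ L ∧ t ≤ ‖L (1 / 2)‖}

open Pool.Agent.NH12.RS in
lemma isRingClass_iff (q : ℕ) (χ : Ideal (𝓞 K) →*₀ ℂ) : IsRingClass q χ ↔ IsPr q χ := by
  constructor
  · intro h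
    refine { supp := h.supp, one := h.one, prim := ?_ }
    intro d hd hne hthr
    obtain ⟨x, h1, h2, h3⟩ := h.prim d hd hne
    exact h3 (hthr x h1 h2)
  · intro h
    refine ⟨h.supp, h.one, ?_⟩
    intro d hd hne
    have h1 := h.prim d hd hne
    unfold Thr at h1
    push Not at h1
    obtain ⟨x, h2, h3, h4⟩ := h1
    exact ⟨x, h2, h3, h4⟩

open Pool.Agent.NH12.RS in
lemma good_sub [IsTotallyReal K] (t : ℝ) (q : ℕ) :
    Good t (⊤ : Ideal (𝓞 K)) 0 (triv K) q 0 ⊆ good K t q := by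
  intro χ hχ
  obtain ⟨h1, h2, L, hL, -, h4⟩ := hχ
  rw [pr_triv] at h2 hL
  refine ⟨(isRingClass_iff q χ).2 h1, ?_, L, ?_, ?_⟩
  · push Not at h2
    exact h2
  · have hN : Ideal.absNorm (differentIdeal ℤ (𝓞 K)) = (discr K).natAbs :=
      absNorm_differentIdeal K (𝓞 K)
    obtain ⟨e1, e2, Λ, e3, e4, e5⟩ := hL
    refine ⟨e1, e2, Λ, e3, ?_, ?_⟩
    · intro s hs
      rw [e4 s hs, hN, Ideal.absNorm_top, one_mul, Nat.cast_zero, add_zero]
      push_cast
      rfl
    · intro s
      rw [e5 s, pow_zero, one_mul]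
  · rw [iteratedDeriv_zero] at h4
    exact h4

open Pool.Agent.NH12.RS in
/-- **Main theorem.** -/
theorem result (K : Type) [Field K] [NumberField K] [IsTotallyReal K]
    (hK : Module.finrank ℚ K = 2) (σ : K ≃+* K) (hσ : ∃ x, σ x ≠ x) (ε : (𝓞 K)ˣ)
    (hε : IsFundamental ε) :
    ∃ (t c C : ℝ) (n₀ : ℕ), 0 < t ∧ 0 < c ∧ ∀ n : ℕ, n₀ ≤ n → n.Prime →
      ∃ q : ℕ, IsIndex σ ε n q ∧
        {χ : Ideal (𝓞 K) →*₀ ℂ | IsRingClass q χ}.Finite ∧
        ({χ : Ideal (𝓞 K) →*₀ ℂ | IsRingClass q χ}.ncard : ℝ) ≤ C * q ∧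
        c * q / Real.log q ^ 8 ≤ ((good K t q).ncard : ℝ) := by
  obtain ⟨S, hS⟩ := t_base K hK σ hσ
  have hB := base_triv (K := K) S
  have hconj : ∀ x : 𝓞 K, conj σ x = S.σ x := by
    intro x
    apply RingOfIntegers.ext
    exact (hS x).symm
  obtain ⟨t, c, n₂, ht, hc, hn₂⟩ := main_rs2 S hK hB
  obtain ⟨C, n₁, hC, hcard⟩ := card_rs S
  refine ⟨t, c, C, max n₁ n₂, ht, hc, fun n hn hnp => ?_⟩
  simp only [max_le_iff] at hn
  obtain ⟨q, hq⟩ := (a_seq K S).1 n hnp
  have hset : {χ : Ideal (𝓞 K) →*₀ ℂ | IsRingClass q χ} = PP K q := by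
    ext χ
    exact isRingClass_iff q χ
  obtain ⟨hfin, hle⟩ := hcard n q hn.1 hq
  obtain ⟨-, -, m3⟩ := hn₂ n q hn.2 hq
  refine ⟨q, ?_, by rw [hset]; exact hfin, by rw [hset]; exact hle, ?_⟩
  · unfold IsIndex
    rw [hconj]
    exact exists_index S hε hnp hq
  · refine (m3 rfl rfl).trans ?_
    have h1 : (good K t q).Finite := by
      rw [← hset] at hfin
      exact hfin.subset fun χ h => h.1
    exact_mod_cast Set.ncard_le_ncard (good_sub t q) h1

end Pool.Agent.Results.MP_347b49_nt.RealQuadraticRingClass
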