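import Pool.Agent.NH12.GL.Sim
import Pool.Agent.Results.MP_3b6604_nt.PositiveProportionOdd

/-!
# Simultaneous non-vanishing of Artin L-functions near the central point

For an irreducible Artin representation `ρ` of `ℚ` and a primitive Dirichlet character `χ` of
conductor `q` prime to the conductor of `ρ`, `ρ ⊗ χ` is an irreducible representation of the Galois group of
a finite extension of `ℚ`.  If `L₀/ℚ` is a Galois extension with group `G`, the `ρ ⊗ χ`, `ρ` an irreducible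
representation of `G`, are irreducible representations of the Galois group of one and the same field
`L₀(ζ_q)`, and statement 2 of the problem says that the values `L(1/2, ρ ⊗ χ)` are simultaneously
different from zero (apart from symplectic representations).

We prove simultaneous non-vanishing for a positive proportion of all `χ`, about `Q²` characters, if
the sum of the degrees of the representations is three:

* a representation `ρ` of degree two and a Dirichlet character `ψ`: `L(1/2, ρ ⊗ χ) L(1/2, ψ χ) ≠ 0`;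
  here `ρ` is any odd irreducible representation (a newform of weight one), or induced from a
  character of a real quadratic field, or any cuspidal automorphic representation of `GL₂`
  over `ℚ`, for instance a Maass form;
* three Dirichlet characters `ψ₁`, `ψ₂`, `ψ₃`: `L(1/2, ψ₁ χ) L(1/2, ψ₂ χ) L(1/2, ψ₃ χ) ≠ 0`.

Instead of the central point one can take arbitrary points `1/2 + it_j` on the critical line, which may
be different for the two or three L-functions (so three given real numbers are simultaneously not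
ordinates of zeros).  More precisely, for given points and each parity there are `c > 0` and `κ > 0`
such that for all large `Q`, at least `c Q²` of the characters `χ` of this parity of conductor
`q ≤ Q` satisfy

* the product of the absolute values at the points is at least `κ / (log Q)⁵`, and
* none of the L-functions has a zero in the disc of radius `κ / log Q` about its point; this radius is
  of the order of the average distance of the zeros.

For instance, if `L₀` is a cyclic extension of degree three (or two), all the characters `ρ ⊗ χ` of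
`Gal(L₀(ζ_q)/ℚ)`, `ρ` a character of `Gal(L₀/ℚ)`, satisfy statement 2 at once; and for every cubic
field `K` (not Galois over `ℚ`) a positive proportion of the `L(s, χ ∘ N_{K/ℚ}) = L(s, χ) L(s, ρ ⊗ χ)`
do not vanish at `1/2`.

Proof.  The product of the L-functions is treated as an L-function of degree three: see the proof of
the result `MP_3b6604_nt/DegreeThreeTwists` (`Pool.Agent.NH12.GL`).
-/

set_option autoImplicit false

open Complex Filter Topology NumberField CongruenceSubgroup MatrixGroups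
open scoped ComplexConjugate

namespace Pool.Agent.Results.MP_347b49_nt.SimultaneousNonvanishing

open Pool.Agent.Results.MP_77948b_nt.CuspidalTwists (Cuspidal IsHecke IsTwistL level exists_twist
  toCD)
open Pool.Agent.Results.MP_3b6604_nt.PositiveProportionOdd (IsNewform a)

/-- The Gauss sum `τ(χ) = ∑_x χ(x) e(x/q)`. -/
noncomputable def tau {q : ℕ} [NeZero q] (χ : DirichletCharacter ℂ q) : ℂ :=
  ∑ x : ZMod q, χ x * Complex.exp (2 * Real.pi * Complex.I * (x.val : ℂ) / (q : ℂ))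

/-- A cuspidal automorphic representation `π` of `GL₂` over `ℚ`: the data and the analytic
properties of the structure `Cuspidal 2` of the starting result `CuspidalTwists` (conductor `N`,
Satake parameters `α`, completed L-functions `Λ q χ` of the twists, entire and bounded in vertical
strips, functional equation, Euler product, non-vanishing on `Re s = 1`, Rankin-Selberg
convolution), and the root numbers of the twists: for `χ` primitive of conductor `q` prime to `N`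
the root number is `w(χ(-1)) ω(q) χ(N) (τ(χ)/√q)²`, where `ω` is the central character, and `w`
depends on the parity of `χ` only. -/
structure CuspidalRep extends Cuspidal 2 where
  /-- the central character -/
  ω : DirichletCharacter ℂ N
  /-- the constants in the root numbers -/
  w : ℂ → ℂ
  w_norm : ‖w 1‖ = 1 ∧ ‖w (-1)‖ = 1
  root : ∀ (q : ℕ) [NeZero q] (χ : DirichletCharacter ℂ q), 2 ≤ q → Nat.Coprime q N →
    χ.IsPrimitive → ∀ s : ℂ, Λ q χ (1 - s) = (w (χ (-1)) * ω (q : ZMod N) *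
      χ (N : ZMod q) * (tau χ / (Real.sqrt q : ℂ)) ^ 2) * conj (Λ q χ (conj s))

/-- The L-function `L(s, π ⊗ χ)`: `Λ(s, π ⊗ χ)` divided by the gamma factor
`(N q²)^(s/2) ∏_j Γ_ℝ(s + μ_j)`. -/
noncomputable def CuspidalRep.L (D : CuspidalRep) (q : ℕ) (χ : DirichletCharacter ℂ q) (s : ℂ) :
    ℂ :=
  D.Λ q χ s * ((((D.N : ℝ) * (q : ℝ) ^ 2 : ℝ) : ℂ) ^ (s / 2))⁻¹ *
    ∏ j, (Gammaℝ (s + D.μ (χ (-1)) j))⁻¹

/-- The functions `L q χ`, for `χ` primitive of conductor `q ≥ 2` prime to `N`, are the L-functions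
`L(s, f ⊗ χ)` of the twists of the newform `f` with nebentypus `η`: they are entire, and given by
the Euler product for `Re s > 1`. -/
def IsNewformTwist {N : ℕ} (η : DirichletCharacter ℂ N)
    (f : CuspForm (Gamma1 N : Subgroup (GL (Fin 2) ℝ)) 1)
    (L : (q : ℕ) → DirichletCharacter ℂ q → ℂ → ℂ) : Prop :=
  ∀ (q : ℕ) (χ : DirichletCharacter ℂ q), 2 ≤ q → Nat.Coprime q N → χ.IsPrimitive →
    Differentiable ℂ (L q χ) ∧ ∀ s : ℂ, 1 < s.re → HasProd (fun p : Nat.Primes =>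
      (1 - χ ((p : ℕ) : ZMod q) * a f p * ((p : ℕ) : ℂ) ^ (-s) +
        χ ((p : ℕ) : ZMod q) ^ 2 * η ((p : ℕ) : ZMod N) * ((p : ℕ) : ℂ) ^ (-2 * s))⁻¹) (L q χ s)

/-- The functions `L q χ`, for `χ` primitive of conductor `q ≥ 2` prime to `N`, are the Dirichlet
L-functions `L(s, ψ χ)`: they are entire, and `L q χ s = ∑ χ(n) ψ(n) n^(-s)` for `Re s > 1`. -/
def IsDirichletTwist {N : ℕ} (ψ : DirichletCharacter ℂ N)
    (L : (q : ℕ) → DirichletCharacter ℂ q → ℂ → ℂ) : Prop :=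
  ∀ (q : ℕ) (χ : DirichletCharacter ℂ q), 2 ≤ q → Nat.Coprime q N → χ.IsPrimitive →
    Differentiable ℂ (L q χ) ∧ ∀ s : ℂ, 1 < s.re →
      HasSum (fun n : ℕ => χ (n : ZMod q) * ψ (n : ZMod N) * (n : ℂ) ^ (-s)) (L q χ s)

/-- `IsFamily N L`: the entire functions `L q χ`, for `χ` primitive of conductor `q ≥ 2` prime to
`N`, are the L-functions of the twists by `χ` of an object of degree two: a cuspidal automorphic
representation, a newform of weight one, the representation induced from a Hecke character of a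
real quadratic field, or two Dirichlet characters `ψ₁`, `ψ₂`, where
`L q χ s = L(s, ψ₁ χ) L(s + iu, ψ₂ χ)`, `u` a real number. -/
inductive IsFamily : ℕ → ((q : ℕ) → DirichletCharacter ℂ q → ℂ → ℂ) → Prop
  | cuspidal (D : CuspidalRep) : IsFamily D.N D.L
  | newform (N : ℕ) [NeZero N] (η : DirichletCharacter ℂ N)
      (f : CuspForm (Gamma1 N : Subgroup (GL (Fin 2) ℝ)) 1) (hf : IsNewform N η f)
      (L : (q : ℕ) → DirichletCharacter ℂ q → ℂ → ℂ) (hL : IsNewformTwist η f L) : IsFamily N L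
  | induced (K : Type) [Field K] [NumberField K] [IsTotallyReal K]
      (hK : Module.finrank ℚ K = 2) (𝔣 : Ideal (𝓞 K))
      (ν : InfinitePlace K → ℝ) (ψ : Ideal (𝓞 K) →*₀ ℂ) (hψ : IsHecke K 𝔣 ν ψ)
      (hν : ∑ w, ν w = 0)
      (L : (q : ℕ) → DirichletCharacter ℂ q → ℂ → ℂ) (hL : IsTwistL ψ (level K 𝔣) L) :
      IsFamily (level K 𝔣) L
  | pair (N₁ N₂ : ℕ) [NeZero N₁] [NeZero N₂] (ψ₁ : DirichletCharacter ℂ N₁)
      (ψ₂ : DirichletCharacter ℂ N₂) (h₁ : ψ₁.IsPrimitive) (h₂ : ψ₂.IsPrimitive)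
      (L₁ L₂ : (q : ℕ) → DirichletCharacter ℂ q → ℂ → ℂ) (hL₁ : IsDirichletTwist ψ₁ L₁)
      (hL₂ : IsDirichletTwist ψ₂ L₂) (u : ℝ) :
      IsFamily (N₁ * N₂) (fun q χ s => L₁ q χ s * L₂ q χ (s + u * I))

/-- The number of the primitive Dirichlet characters `χ` of conductor `q`, `2 ≤ q ≤ Q`, `q` prime to
`N`, which have the property `S q χ`. -/
noncomputable def count (N Q : ℕ) (S : (q : ℕ) → DirichletCharacter ℂ q → Prop) : ℕ :=
  ∑ q ∈ (Finset.Icc 2 Q).filter (fun q => Nat.Coprime q N),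
    {χ : DirichletCharacter ℂ q | χ.IsPrimitive ∧ S q χ}.ncard

/-! ### Auxiliary facts -/

open Pool.Agent.NH12.GL

lemma tau_eq {q : ℕ} [NeZero q] (χ : DirichletCharacter ℂ q) : tau χ = gs χ := by
  unfold tau gs gaussSum
  refine Finset.sum_congr rfl fun x _ => ?_
  congr 1
  have h := ZMod.stdAddChar_coe (N := q) (x.val : ℤ)
  rw [Int.cast_natCast, ZMod.natCast_zmod_val] at h
  rw [h]
  push_cast
  rfl

lemma root_eq {q : ℕ} [NeZero q] (χ : DirichletCharacter ℂ q) :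
    (tau χ / (Real.sqrt q : ℂ)) ^ 2 = gs χ ^ 2 / (((q : ℝ) ^ (((2 : ℕ) : ℝ) / 2 : ℝ) : ℝ) : ℂ) := by
  rw [tau_eq, div_pow]
  congr 1
  rw [← Complex.ofReal_pow]
  congr 1
  rw [Real.sq_sqrt (Nat.cast_nonneg q)]
  norm_num

lemma newf1 {N : ℕ} {η : DirichletCharacter ℂ N}
    {f : CuspForm (Gamma1 N : Subgroup (GL (Fin 2) ℝ)) 1} (hf : IsNewform N η f) :
    ∃ w : ℂ, Pool.Agent.W192.WO.Newf1 N η f w := by
  obtain ⟨w, hw, hfr⟩ := hf.fricke
  exact ⟨w, hf.one, hf.mul, hf.pow, hf.conj, hf.good, hf.bad, hf.neb, hw, hfr⟩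

lemma dirTw {N : ℕ} {ψ : DirichletCharacter ℂ N} {L : (q : ℕ) → DirichletCharacter ℂ q → ℂ → ℂ}
    (h : IsDirichletTwist ψ L) {M : ℕ} (hM : N ∣ M) : DirTw ψ M L := fun q χ hq hqM hχ =>
  h q χ hq (Nat.Coprime.coprime_dvd_right hM hqM) hχ

/-- the families in the form of the library -/
theorem fam2 {N₂ : ℕ} {L : (q : ℕ) → DirichletCharacter ℂ q → ℂ → ℂ} (h : IsFamily N₂ L)
    {N : ℕ} (hN : N₂ ∣ N) {e : ℂ} (he : e = 1 ∨ e = -1) :
    N₂ ≠ 0 ∧ ∃ (Pr : Set ℕ) (R V S : ℝ) (c : ℕ → ℂ)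
      (F ep : (q : ℕ) → DirichletCharacter ℂ q → ℂ → ℂ) (g : ℂ → ℂ) (b : ℕ → ℕ → ℂ)
      (u : (r : ℕ) → DirichletCharacter ℂ r → ℂ) (v : ℕ → ℤ) (M : ℤ), Dens Pr ∧
      TwM 2 Pr N e R V S c F ep g b u v M ∧
      (∀ c₁ : ℕ → ℂ, (∀ n, ‖c₁ n‖ ≤ 1) → ∃ CA : ℝ, 0 ≤ CA ∧ SqA (fun n => c n + c₁ n) CA 5) ∧
      ∀ (q : ℕ) (χ : DirichletCharacter ℂ q), 2 ≤ q → Nat.Coprime q N → χ.IsPrimitive →
        Differentiable ℂ (L q χ) ∧ L q χ = F q χ := by
  cases h with
  | cuspidal D =>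
    obtain ⟨V, S, ep, g, b, u, v, M, hT⟩ := t_cd t_crt 2 (toCD D.toCuspidal) D.ω D.w D.w_norm.1
      D.w_norm.2 (fun q _ χ hq hqN hχ s => by
        have h1 := D.root q χ hq hqN hχ s
        rw [root_eq] at h1
        exact h1) e he N hN
    refine ⟨Nat.one_le_iff_ne_zero.1 D.N_pos, Set.univ, _, V, S, _, _, ep, g, b, u, v, M,
      dens_univ, hT, fun c₁ hc₁ => sqA_add ⟨D.rankin, D.residue⟩ hc₁, fun q χ hq hqN hχ => ?_⟩
    exact ⟨(toCD D.toCuspidal).diff χ hq (Nat.Coprime.coprime_dvd_right hN hqN) hχ, rfl⟩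
  | newform _ η f hf L hL =>
    obtain ⟨w, hw⟩ := newf1 hf
    obtain ⟨V, S, c, F, ep, g, b, u, v, M, hc, hT, hF⟩ := t_newf' t_crt hw N e hN he
    refine ⟨NeZero.ne N₂, Set.univ, _, V, S, c, F, ep, g, b, u, v, M, dens_univ, hT,
      hS_bdd hc, fun q χ hq hqN hχ => ?_⟩
    have hqN₂ := Nat.Coprime.coprime_dvd_right hN hqN
    obtain ⟨h1, h2⟩ := hL q χ hq hqN₂ hχ
    obtain ⟨h3, h4⟩ := hF q χ (by omega) hqN₂ hχ
    exact ⟨h1, entire_uniq h1 h3 fun s hs => (h2 s hs).unique (h4 s hs)⟩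
  | induced K hK 𝔣 ν ψ hψ hν L hL =>
    have hψ' : Pool.Agent.Y767.IsHecke K 𝔣 ν ψ := ⟨⟨hψ.ne_bot, hψ.supp, hψ.ray⟩, hψ.prim⟩
    have hG : IsGalois ℚ K := by
      have h1 : Algebra.IsQuadraticExtension ℚ K := ⟨hK⟩
      infer_instance
    obtain ⟨R, V, S, F, ep, g, b, u, v, M, hc, hT, hF⟩ := hecke_cc K 𝔣 ν ψ N e hψ' hν hN he
    rw [hK] at hT hc
    refine ⟨level_ne hψ.ne_bot, Spl K, R, V, S, _, F, ep, g, b, u, v, M, t_split K, hT,
      hS_bdd (by exact_mod_cast hc), fun q χ hq hqN hχ => ?_⟩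
    obtain ⟨h1, h2⟩ := hL q χ hq (Nat.Coprime.coprime_dvd_right hN hqN) hχ
    obtain ⟨h3, h4⟩ := hF q χ hq hqN hχ
    refine ⟨h1, entire_uniq h1 h3 fun s hs => ?_⟩
    rw [h4 s hs]
    exact (h2 s hs).tsum_eq.symm
  | pair N₁ N₂ ψ₁ ψ₂ h₁ h₂ L₁ L₂ hL₁ hL₂ t =>
    have hN₁ : N₁ ∣ N := (Dvd.intro _ rfl).trans hN
    have hN₂ : N₂ ∣ N := (Dvd.intro_left _ rfl).trans hN
    obtain ⟨V₁, S₁, c₁, ep₁, g₁, b₁, u₁, v₁, M₁, hc₁, hT₁⟩ := t_dir' t_crt N₁ N ψ₁ e h₁ hN₁ he
    obtain ⟨V₂, S₂, c₂, ep₂, g₂, b₂, u₂, v₂, M₂, hc₂, hT₂⟩ := t_dir' t_crt N₂ N ψ₂ e h₂ hN₂ he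
    obtain ⟨V₃, ep₃, g₃, b₃, hT₃⟩ := t_shift _ _ _ _ _ _ _ _ _ _ _ _ _ _ _ hT₂ t
    have hT := t_mul 1 1 Set.univ N e _ _ _ _ _ _ _ _ _ _ _ _ _ _ _ _ _ _ _ _ _ _ hT₁ hT₃
    refine ⟨mul_ne_zero (NeZero.ne N₁) (NeZero.ne N₂), Set.univ, _, _, _, _, _, _, _, _, _, _, _,
      dens_univ, hT, hS_bdd fun n => (norm_add_le _ _).trans (by
        have h3 := norm_shift_le c₂ t n
        linarith [hc₁ n, hc₂ n]),
      fun q χ hq hqN hχ => ?_⟩
    have e1 := dirTw_eq h₁ hN₁ (dirTw hL₁ hN₁) hq hqN hχ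
    have e2 := dirTw_eq h₂ hN₂ (dirTw hL₂ hN₂) hq hqN hχ
    refine ⟨(dirTw hL₁ hN₁ q χ hq hqN hχ).1.mul
      ((dirTw hL₂ hN₂ q χ hq hqN hχ).1.comp (differentiable_id.add_const _)), ?_⟩
    funext s
    show L₁ q χ s * L₂ q χ (s + t * I) = _
    rw [congrFun e1 s, congrFun e2 (s + t * I)]

/-- **Theorem.** (1) The L-functions of the twists exist, as entire functions.  (2) Let `L q χ` be the
L-functions of the twists of an object of degree two and level `N`, and let `L' q χ` be the L-functions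
`L(s, ψ χ)`, `ψ` a primitive Dirichlet character of conductor `N'`.  The functions `L q χ` are entire, and
for every parity `e = ±1` and all real numbers `t` and `t'` there are positive constants `c` and `κ`
such that for all sufficiently large `Q` there are at least `c Q²` primitive characters `χ` of
conductor `q ≤ Q` prime to `N N'`, with `χ(-1) = e`, for which
`|L(1/2 + it)| |L(1/2 + it', ψ χ)| ≥ κ / (log Q)⁵`, and `L(s) ≠ 0` for all `s` in the disc
`|s - 1/2 - it| ≤ κ / log Q` and `L(s, ψ χ) ≠ 0` for all `s` in the disc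
`|s - 1/2 - it'| ≤ κ / log Q`. -/
theorem result :
    ((∀ (N : ℕ) [NeZero N] (ψ : DirichletCharacter ℂ N), ψ.IsPrimitive →
      ∃ L : (q : ℕ) → DirichletCharacter ℂ q → ℂ → ℂ, IsDirichletTwist ψ L) ∧
    (∀ (N : ℕ) [NeZero N] (η : DirichletCharacter ℂ N)
      (f : CuspForm (Gamma1 N : Subgroup (GL (Fin 2) ℝ)) 1), IsNewform N η f →
      ∃ L : (q : ℕ) → DirichletCharacter ℂ q → ℂ → ℂ, IsNewformTwist η f L) ∧
    (∀ (K : Type) [Field K] [NumberField K] [IsTotallyReal K] (𝔣 : Ideal (𝓞 K))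
      (ν : InfinitePlace K → ℝ) (ψ : Ideal (𝓞 K) →*₀ ℂ), IsHecke K 𝔣 ν ψ → ∑ w, ν w = 0 →
      ∃ L : (q : ℕ) → DirichletCharacter ℂ q → ℂ → ℂ, IsTwistL ψ (level K 𝔣) L)) ∧
    ∀ (N : ℕ) (L : (q : ℕ) → DirichletCharacter ℂ q → ℂ → ℂ), IsFamily N L →
      ∀ (N' : ℕ) [NeZero N'] (ψ : DirichletCharacter ℂ N'), ψ.IsPrimitive →
      ∀ L' : (q : ℕ) → DirichletCharacter ℂ q → ℂ → ℂ, IsDirichletTwist ψ L' →
      (∀ (q : ℕ) (χ : DirichletCharacter ℂ q), 2 ≤ q → Nat.Coprime q N → χ.IsPrimitive →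
        Differentiable ℂ (L q χ)) ∧
      ∀ (e : ℂ) (t t' : ℝ), e = 1 ∨ e = -1 →
        ∃ (c κ : ℝ) (Q₀ : ℕ), 0 < c ∧ 0 < κ ∧ ∀ Q : ℕ, Q₀ ≤ Q → c * (Q : ℝ) ^ 2 ≤
          (count (N * N') Q (fun q χ => χ (-1) = e ∧
            κ / Real.log Q ^ 5 ≤ ‖L q χ (1 / 2 + t * I)‖ * ‖L' q χ (1 / 2 + t' * I)‖ ∧
            (∀ s : ℂ, ‖s - (1 / 2 + t * I)‖ ≤ κ / Real.log Q → L q χ s ≠ 0) ∧
            ∀ s : ℂ, ‖s - (1 / 2 + t' * I)‖ ≤ κ / Real.log Q → L' q χ s ≠ 0) : ℝ) := by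
  refine ⟨⟨fun N _ ψ hψ => ?_, fun N _ η f hf => ?_,
    fun K _ _ _ 𝔣 ν ψ hψ hν => exists_twist hψ hν⟩, ?_⟩
  · exact exists_dirTw hψ dvd_rfl
  · obtain ⟨w, hw⟩ := newf1 hf
    obtain ⟨V, S, c, F, ep, g, b, u, v, M, hc, hT, hF⟩ := t_newf' t_crt hw N 1 dvd_rfl
      (Or.inl rfl)
    exact ⟨F, fun q χ hq hqN hχ => hF q χ (by omega) hqN hχ⟩
  · intro N L hL N' _ ψ hψ L' hL'
    refine ⟨fun q χ hq hqN hχ => ?_, fun e t t' he => ?_⟩
    · obtain ⟨-, Pr, R, V, S, c, F, ep, g, b, u, v, M, -, -, -, h⟩ := fam2 hL dvd_rfl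
        (e := 1) (Or.inl rfl)
      exact (h q χ hq hqN hχ).1
    · obtain ⟨hN0, Pr, R, V, S, c, F, ep, g, b, u, v, M, hD, hT, hS, h⟩ := fam2 hL
        (Dvd.intro N' rfl) he
      obtain ⟨c₂, κ, Q₀, h1, h2, h3⟩ := sim_gen (mul_ne_zero hN0 (NeZero.ne N')) he hD hT hS hψ
        (Dvd.intro_left N rfl) (dirTw hL' (Dvd.intro_left N rfl)) t t'
      refine ⟨c₂, κ, Q₀, h1, h2, fun Q hQ => (h3 Q hQ).trans ?_⟩
      refine Pool.Agent.R399.TM.count_mono (dvd_refl _) ?_
      rintro q χ hq hqN hχ ⟨g1, g2, g3, g4⟩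
      rw [← (h q χ hq hqN hχ).2] at g2 g3
      exact ⟨g1, g2, g3, g4⟩

end Pool.Agent.Results.MP_347b49_nt.SimultaneousNonvanishing
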